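import Mathlib

/-!
# Selection of a jump

Two families of gaps in the digits of the time and of the position, each gap has a length and a
class (a jump of class `s` has size at least `2 ^ (-s)`). There are a gap of class at most `s` and a
step `R` such that for most rows no gap of the other family of class at most `s + R` meets the lag
window of the row.
-/

set_option autoImplicit false

namespace Pool.QUAD

open Finset

/-- **The shortest gap.** For one of the classes `s₀ + j R` the shortest gap of this class is at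
most `Q` times as long as all gaps of the next class. -/
theorem short_gap {ι : Type} [Fintype ι] (e cl : ι → ℕ) (he : ∀ i, 1 ≤ e i) {L Q J : ℕ} (R s₀ : ℕ)
    (hL : ∀ i, e i ≤ L) (hQ : L < Q ^ J) (h0 : ∃ i, cl i ≤ s₀) :
    ∃ j < J, ∃ i, cl i ≤ s₀ + j * R ∧ ∀ k, cl k ≤ s₀ + (j + 1) * R → e i ≤ Q * e k := by
  by_contra hc
  push Not at hc
  have key : ∀ j ≤ J, ∃ i, cl i ≤ s₀ + j * R ∧ e i * Q ^ j ≤ L := by
    intro j
    induction j with
    | zero =>
      intro _
      obtain ⟨i, hi⟩ := h0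
      exact ⟨i, by omega, by rw [pow_zero, mul_one]; exact hL i⟩
    | succ j ih =>
      intro hj
      obtain ⟨i, h1, h2⟩ := ih (by omega)
      obtain ⟨k, h3, h4⟩ := hc j (by omega) i h1
      refine ⟨k, h3, ?_⟩
      calc e k * Q ^ (j + 1) = Q * e k * Q ^ j := by ring
        _ ≤ e i * Q ^ j := Nat.mul_le_mul_right _ h4.le
        _ ≤ L := h2
  obtain ⟨i, -, h2⟩ := key J le_rfl
  have h3 := Nat.mul_le_mul_right (Q ^ J) (he i)
  omega

/-- The rows `r` such that the lag window of the gap `(x, x + e)` meets one of the gaps of the other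
family with the property `p`. -/
noncomputable def badRows {κ : Type} [Fintype κ] (n : ℕ) (x' e' : κ → ℕ) (p : κ → Prop) (x e : ℕ) : Finset ℕ :=
  open Classical in
  (range n).filter fun r => ∃ k, p k ∧ x + x' k < r ∧ r < x + e + (x' k + e' k)

theorem badRows_card {κ : Type} [Fintype κ] (n : ℕ) (x' e' : κ → ℕ) (p : κ → Prop) (x e Q L : ℕ)
    (hL : ∑ k, e' k ≤ L) (hp : ∀ k, p k → e ≤ Q * e' k) :
    (badRows n x' e' p x e).card ≤ (Q + 1) * L := by
  classical
  have h1 : badRows n x' e' p x e ⊆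
      (univ.filter p).biUnion fun k => Ioo (x + x' k) (x + e + (x' k + e' k)) := by
    intro r hr
    unfold badRows at hr
    rw [mem_filter] at hr
    obtain ⟨-, k, hk, h1, h2⟩ := hr
    rw [mem_biUnion]
    exact ⟨k, by simpa using hk, by rw [mem_Ioo]; exact ⟨h1, h2⟩⟩
  calc (badRows n x' e' p x e).card ≤ _ := card_le_card h1
    _ ≤ ∑ k ∈ univ.filter p, (Ioo (x + x' k) (x + e + (x' k + e' k))).card := card_biUnion_le
    _ ≤ ∑ k ∈ univ.filter p, (Q + 1) * e' k := by
        refine sum_le_sum fun k hk => ?_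
        have h2 := hp k (by simpa using hk)
        rw [Nat.card_Ioo]
        calc x + e + (x' k + e' k) - (x + x' k) - 1 ≤ e + e' k := by omega
          _ ≤ Q * e' k + e' k := Nat.add_le_add_right h2 _
          _ = (Q + 1) * e' k := by ring
    _ ≤ ∑ k, (Q + 1) * e' k := sum_le_sum_of_subset (filter_subset _ _)
    _ = (Q + 1) * ∑ k, e' k := by rw [mul_sum]
    _ ≤ (Q + 1) * L := Nat.mul_le_mul_left _ hL

/-- **Selection.** Two families of gaps of total lengths at most `L < Q ^ J`, one gap of class at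
most `s₀`: there are `j < J` and a gap of one of the families, of class at most `s = s₀ + j R`, such
that for all but `(Q + 1) L` rows no gap of the other family of class at most `s + R` meets the lag
window. -/
theorem sel {ι κ : Type} [Fintype ι] [Fintype κ] (x e cl : ι → ℕ) (x' e' cl' : κ → ℕ)
    (he : ∀ i, 1 ≤ e i) (he' : ∀ k, 1 ≤ e' k) {L Q J : ℕ} (hL : ∑ i, e i ≤ L)
    (hL' : ∑ k, e' k ≤ L) (hQ : L < Q ^ J) (R s₀ : ℕ)
    (h0 : (∃ i, cl i ≤ s₀) ∨ ∃ k, cl' k ≤ s₀) :
    ∃ j < J,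
      (∃ i, cl i ≤ s₀ + j * R ∧ (∀ k, cl' k ≤ s₀ + (j + 1) * R → e i ≤ Q * e' k) ∧ ∀ n,
        (badRows n x' e' (fun k => cl' k ≤ s₀ + (j + 1) * R) (x i) (e i)).card ≤ (Q + 1) * L) ∨
      (∃ k, cl' k ≤ s₀ + j * R ∧ (∀ i, cl i ≤ s₀ + (j + 1) * R → e' k ≤ Q * e i) ∧ ∀ n,
        (badRows n x e (fun i => cl i ≤ s₀ + (j + 1) * R) (x' k) (e' k)).card ≤ (Q + 1) * L) := by
  have h1 : ∀ i, e i ≤ L := fun i =>
    (single_le_sum (f := e) (fun _ _ => Nat.zero_le _) (mem_univ i)).trans hL
  have h2 : ∀ k, e' k ≤ L := fun k =>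
    (single_le_sum (f := e') (fun _ _ => Nat.zero_le _) (mem_univ k)).trans hL'
  obtain ⟨j, hj, i, hi, hk⟩ := short_gap (ι := ι ⊕ κ) (Sum.elim e e') (Sum.elim cl cl')
    (by rintro (i | k); exacts [he i, he' k]) (L := L) (Q := Q) (J := J) R s₀
    (by rintro (i | k); exacts [h1 i, h2 k]) hQ
    (by
      rcases h0 with ⟨i, hi⟩ | ⟨k, hk⟩
      · exact ⟨Sum.inl i, hi⟩
      · exact ⟨Sum.inr k, hk⟩)
  refine ⟨j, hj, ?_⟩
  rcases i with i | k
  · left
    refine ⟨i, hi, fun k hk' => hk (Sum.inr k) hk', fun n => ?_⟩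
    exact badRows_card n x' e' _ (x i) (e i) Q L hL' fun k hk' => hk (Sum.inr k) hk'
  · right
    refine ⟨k, hi, fun i hi' => hk (Sum.inl i) hi', fun n => ?_⟩
    exact badRows_card n x e _ (x' k) (e' k) Q L hL fun i hi' => hk (Sum.inl i) hi'

end Pool.QUAD
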